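import Pool.Agent.H70.EN.Targets

/-!
# Logarithmic averages and division (LDQ)
-/

set_option autoImplicit false

namespace Pool.Agent.H17.EN.D

open Finset Pool.Agent.H6.N4D Pool.Agent.H93.EB Pool.Agent.H70.EN

lemma lg_ico (X : ℕ) (f : ℕ → ℝ) : lg X f = ∑ n ∈ Ico 1 (X + 1), f n / n := by
  unfold lg
  rfl

/-- one block -/
lemma block (q K : ℕ) (hq : 1 ≤ q) (hK : 1 ≤ K) :
    1 / ((K : ℝ) + 1) ≤ ∑ n ∈ Ico (q * K) (q * (K + 1)), 1 / (n : ℝ) ∧
    ∑ n ∈ Ico (q * K) (q * (K + 1)), 1 / (n : ℝ) ≤ 1 / K := by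
  have hq0 : (0 : ℝ) < q := by exact_mod_cast hq
  have hK0 : (0 : ℝ) < K := by exact_mod_cast hK
  have hc : (Ico (q * K) (q * (K + 1))).card = q := by
    rw [Nat.card_Ico, Nat.mul_add, Nat.add_sub_cancel_left, mul_one]
  constructor
  · have h1 : ∀ n ∈ Ico (q * K) (q * (K + 1)), 1 / ((q : ℝ) * (K + 1)) ≤ 1 / (n : ℝ) := by
      intro n hn
      rw [mem_Ico] at hn
      have h2 : 0 < n := lt_of_lt_of_le (Nat.mul_pos hq hK) hn.1
      have h3 : (n : ℝ) ≤ q * (K + 1) := by exact_mod_cast hn.2.le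
      exact one_div_le_one_div_of_le (by exact_mod_cast h2) h3
    have h2 := sum_le_sum h1
    rw [sum_const, hc, nsmul_eq_mul] at h2
    refine le_trans (le_of_eq ?_) h2
    field_simp
  · have h1 : ∀ n ∈ Ico (q * K) (q * (K + 1)), 1 / (n : ℝ) ≤ 1 / ((q : ℝ) * K) := by
      intro n hn
      rw [mem_Ico] at hn
      have h3 : (q : ℝ) * K ≤ n := by exact_mod_cast hn.1
      exact one_div_le_one_div_of_le (by positivity) h3
    have h2 := sum_le_sum h1
    rw [sum_const, hc, nsmul_eq_mul] at h2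
    refine h2.trans (le_of_eq ?_)
    field_simp

lemma div_block (q K n : ℕ) (_hq : 1 ≤ q) (h1 : q * K ≤ n) (h2 : n < q * (K + 1)) :
    n / q = K := by
  rw [Nat.div_eq_iff (by omega)]
  constructor
  · rw [Nat.mul_comm]
    exact h1
  · rw [Nat.mul_comm K q]
    rw [Nat.mul_add, mul_one] at h2
    omega

/-- complete blocks -/
lemma blocks (q : ℕ) (hq : 1 ≤ q) (h : ℕ → ℝ) (hh : ∀ n, 0 ≤ h n ∧ h n ≤ 1) (K : ℕ)
    (hK : 1 ≤ K) :
    ∑ m ∈ Ico 1 K, h m / m - (1 - 1 / K) ≤ ∑ n ∈ Ico 1 (q * K), h (n / q) / n ∧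
    ∑ n ∈ Ico 1 (q * K), h (n / q) / n ≤ (1 + Real.log q) + ∑ m ∈ Ico 1 K, h m / m := by
  induction K, hK using Nat.le_induction with
  | base =>
    have e1 : ∀ n ∈ Ico 1 (q * 1), h (n / q) / n = h 0 * (1 / n) := by
      intro n hn
      rw [mem_Ico] at hn
      rw [div_block q 0 n hq (by omega) (by omega)]
      ring
    rw [sum_congr rfl e1, ← mul_sum]
    have h1 : 0 ≤ ∑ n ∈ Ico 1 (q * 1), 1 / (n : ℝ) := sum_nonneg fun n _ => by positivity
    have h2 : ∑ n ∈ Ico 1 (q * 1), 1 / (n : ℝ) ≤ 1 + Real.log q := by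
      have h3 := lg_one_le q
      rw [lg_ico] at h3
      refine le_trans (sum_le_sum_of_subset_of_nonneg (Ico_subset_Ico le_rfl (by omega))
        fun n _ _ => by positivity) h3
    obtain ⟨h3, h4⟩ := hh 0
    simp only [Ico_self, sum_empty, Nat.cast_one]
    constructor
    · have := mul_nonneg h3 h1
      linarith
    · have := mul_le_mul_of_nonneg_right h4 h1
      linarith
  | succ K hK ih =>
    have hK0 : (0 : ℝ) < K := by exact_mod_cast hK
    have hqK : 1 ≤ q * K := Nat.mul_pos hq hK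
    have e0 : ∑ n ∈ Ico 1 (q * (K + 1)), h (n / q) / n = ∑ n ∈ Ico 1 (q * K), h (n / q) / n +
        ∑ n ∈ Ico (q * K) (q * (K + 1)), h (n / q) / n :=
      (sum_Ico_consecutive _ hqK (Nat.mul_le_mul_left q (Nat.le_succ K))).symm
    have e1 : ∑ n ∈ Ico (q * K) (q * (K + 1)), h (n / q) / n =
        h K * ∑ n ∈ Ico (q * K) (q * (K + 1)), 1 / (n : ℝ) := by
      rw [mul_sum]
      refine sum_congr rfl fun n hn => ?_
      rw [mem_Ico] at hn
      rw [div_block q K n hq hn.1 hn.2]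
      ring
    have e2 : ∑ m ∈ Ico 1 (K + 1), h m / m = ∑ m ∈ Ico 1 K, h m / m + h K / K :=
      sum_Ico_succ_top hK _
    obtain ⟨b1, b2⟩ := block q K hq hK
    obtain ⟨h3, h4⟩ := hh K
    obtain ⟨i1, i2⟩ := ih
    rw [e0, e1, e2]
    push_cast
    constructor
    · have k1 := mul_le_mul_of_nonneg_left b1 h3
      have k2 : h K * (1 / (K : ℝ) - 1 / (K + 1)) ≤ 1 * (1 / (K : ℝ) - 1 / (K + 1)) := by
        refine mul_le_mul_of_nonneg_right h4 ?_
        rw [sub_nonneg]
        exact one_div_le_one_div_of_le hK0 (by linarith)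
      have k3 : h K / (K : ℝ) = h K * (1 / K) := by ring
      rw [k3]
      nlinarith
    · have k1 := mul_le_mul_of_nonneg_left b2 h3
      have k3 : h K / (K : ℝ) = h K * (1 / K) := by ring
      rw [k3]
      linarith

lemma lg_bd (X : ℕ) (f : ℕ → ℝ) (hf : ∀ n, 0 ≤ f n ∧ f n ≤ 1) :
    0 ≤ lg X f ∧ lg X f ≤ 1 + Real.log X := by
  constructor
  · exact lg_nonneg fun n _ => (hf n).1
  · exact (lg_mono fun n _ => (hf n).2).trans (lg_one_le X)

theorem pf_LDQ (_h1 : T_LG1) : T_LDQ := by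
  intro X q h hq hh
  have hq0 : (0 : ℝ) < q := by exact_mod_cast hq
  have hlq : 0 ≤ Real.log q := Real.log_nonneg (by exact_mod_cast hq)
  have hh' : ∀ n, 0 ≤ h (n / q) ∧ h (n / q) ≤ 1 := fun n => hh _
  by_cases hX : X + 1 < q
  · obtain ⟨a1, a2⟩ := lg_bd X h hh
    obtain ⟨b1, b2⟩ := lg_bd X (fun n => h (n / q)) hh'
    have hl : Real.log X ≤ Real.log q := by
      rcases Nat.eq_zero_or_pos X with h0 | h0
      · subst h0
        simpa using hlq
      · exact Real.log_le_log (by exact_mod_cast h0) (by exact_mod_cast (by omega : X ≤ q))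
    rw [abs_le]
    constructor <;> linarith
  · rw [not_lt] at hX
    set K := (X + 1) / q with hK
    have hK1 : 1 ≤ K := (Nat.one_le_div_iff (by omega)).2 hX
    have hK2 : q * K ≤ X + 1 := Nat.mul_div_le _ _
    have hK3 : X + 1 < q * (K + 1) := Nat.lt_mul_div_succ _ (by omega)
    have hKX : K ≤ X + 1 := Nat.div_le_self _ _
    have hqK : 1 ≤ q * K := Nat.mul_pos hq hK1
    have hK0 : (0 : ℝ) < K := by exact_mod_cast hK1
    obtain ⟨i1, i2⟩ := blocks q hq h hh K hK1
    -- the sum with `n / q`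
    have e1 : lg X (fun n => h (n / q)) = ∑ n ∈ Ico 1 (q * K), h (n / q) / n +
        ∑ n ∈ Ico (q * K) (X + 1), h (n / q) / n := by
      rw [lg_ico]
      exact (sum_Ico_consecutive _ hqK hK2).symm
    have r0 : 0 ≤ ∑ n ∈ Ico (q * K) (X + 1), h (n / q) / n :=
      sum_nonneg fun n _ => div_nonneg (hh' n).1 (Nat.cast_nonneg n)
    have r1 : ∑ n ∈ Ico (q * K) (X + 1), h (n / q) / n ≤ 1 := by
      have k1 : ∑ n ∈ Ico (q * K) (X + 1), h (n / q) / n ≤
          ∑ n ∈ Ico (q * K) (X + 1), 1 / (n : ℝ) :=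
        sum_le_sum fun n _ => div_le_div_of_nonneg_right (hh' n).2 (Nat.cast_nonneg n)
      have k2 : ∑ n ∈ Ico (q * K) (X + 1), 1 / (n : ℝ) ≤
          ∑ n ∈ Ico (q * K) (q * (K + 1)), 1 / (n : ℝ) :=
        sum_le_sum_of_subset_of_nonneg (Ico_subset_Ico le_rfl hK3.le) fun n _ _ => by positivity
      have k3 := (block q K hq hK1).2
      have k4 : 1 / (K : ℝ) ≤ 1 := by
        rw [div_le_one hK0]
        exact_mod_cast hK1
      linarith
    -- the sum of `h`
    have e2 : lg X h = ∑ m ∈ Ico 1 K, h m / m + ∑ m ∈ Ico K (X + 1), h m / m := by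
      rw [lg_ico]
      exact (sum_Ico_consecutive _ hK1 hKX).symm
    have t0 : 0 ≤ ∑ m ∈ Ico K (X + 1), h m / m :=
      sum_nonneg fun n _ => div_nonneg (hh n).1 (Nat.cast_nonneg n)
    have t1 : ∑ m ∈ Ico K (X + 1), h m / m ≤ 2 + Real.log q := by
      have k1 : ∑ m ∈ Ico K (X + 1), h m / m ≤ ∑ m ∈ Ico K (X + 1), 1 / (m : ℝ) :=
        sum_le_sum fun n _ => div_le_div_of_nonneg_right (hh n).2 (Nat.cast_nonneg n)
      have k2 : ∑ m ∈ Ico 1 K, 1 / (m : ℝ) + ∑ m ∈ Ico K (X + 1), 1 / (m : ℝ) =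
          ∑ m ∈ Ico 1 (X + 1), 1 / (m : ℝ) := sum_Ico_consecutive _ hK1 hKX
      have k3 := lg_one_le X
      rw [lg_ico] at k3
      have k4 : Real.log K ≤ ∑ m ∈ Ico 1 K, 1 / (m : ℝ) := by
        obtain ⟨j, hj⟩ : ∃ j, K = j + 1 := ⟨K - 1, by omega⟩
        have := log_le_lg_one j
        rw [lg_ico] at this
        rw [hj]
        push_cast
        exact this
      have k5 : Real.log X ≤ Real.log (2 * q) + Real.log K := by
        rcases Nat.eq_zero_or_pos X with h0 | h0
        · rw [h0, Nat.cast_zero, Real.log_zero]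
          have : 0 ≤ Real.log (2 * q) := Real.log_nonneg (by
            have : (1 : ℝ) ≤ q := by exact_mod_cast hq
            linarith)
          have : 0 ≤ Real.log K := Real.log_nonneg (by exact_mod_cast hK1)
          linarith
        · rw [← Real.log_mul (by positivity) (by positivity)]
          refine Real.log_le_log (by exact_mod_cast h0) ?_
          have h5 : X ≤ 2 * q * K := by
            have : q * 1 ≤ q * K := Nat.mul_le_mul_left q hK1
            have e : q * (K + 1) = q * K + q := by ring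
            have e' : 2 * q * K = q * K + q * K := by ring
            omega
          exact_mod_cast h5
      have k6 : Real.log (2 * q) ≤ 1 + Real.log q := by
        rw [Real.log_mul (by norm_num) hq0.ne']
        have := Real.log_two_lt_d9
        linarith
      linarith
    have h1K : 0 ≤ 1 / (K : ℝ) := by positivity
    rw [e1, e2, abs_le]
    constructor <;> linarith

end Pool.Agent.H17.EN.D
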