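import Pool.Agent.H70.EN.Targets

/-!
# Logarithmic averages and shifts (LSH)
-/

set_option autoImplicit false

namespace Pool.Agent.H17.EN

open Finset Pool.Agent.H6.N4D Pool.Agent.H93.EB Pool.Agent.H70.EN

/-- partial sums -/
noncomputable def G (h : ℕ → ℝ) (k : ℕ) : ℝ := ∑ m ∈ Ioc 0 k, h m / m

lemma lg_eq (X : ℕ) (f : ℕ → ℝ) : lg X f = G f X := by
  unfold lg G
  congr 1

lemma G_add (h : ℕ → ℝ) (a b : ℕ) : G h (a + b) = G h a + ∑ m ∈ Ioc a (a + b), h m / m := by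
  unfold G
  exact (sum_Ioc_consecutive _ (Nat.zero_le _) (Nat.le_add_right _ _)).symm

lemma sum_shift (g : ℕ → ℝ) (s X : ℕ) :
    ∑ n ∈ Ioc 0 X, g (n + s) = ∑ m ∈ Ioc s (X + s), g m := by
  induction X with
  | zero => simp
  | succ X ih =>
    rw [sum_Ioc_succ_top (Nat.zero_le _), ih, Nat.add_right_comm,
      sum_Ioc_succ_top (Nat.le_add_left _ _)]

/-- partial sums of the harmonic series -/
noncomputable def Hh (k : ℕ) : ℝ := G (fun _ => 1) k

lemma Hh_le (s : ℕ) : Hh s ≤ 1 + Real.log (1 + s) := by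
  have h1 := lg_one_le s
  rw [lg_eq] at h1
  refine h1.trans ?_
  rcases Nat.eq_zero_or_pos s with h | h
  · subst h
    simp
  · have h2 : (0 : ℝ) < s := by exact_mod_cast h
    have := Real.log_le_log h2 (show (s : ℝ) ≤ 1 + s by linarith)
    linarith

lemma Hh_nonneg (s : ℕ) : 0 ≤ Hh s := by
  unfold Hh G
  exact sum_nonneg fun m _ => by positivity

theorem pf_LSH (_h1 : T_LG1) : T_LSH := by
  intro X s h hh
  have hH := Hh_le s
  have hH0 := Hh_nonneg s
  -- the two differences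
  have e0 : lg X (fun n => h (n + s)) = ∑ n ∈ Ioc 0 X, h (n + s) / n := by
    rw [lg_eq]
    rfl
  have e1 : ∑ n ∈ Ioc 0 X, h (n + s) / ((n + s : ℕ) : ℝ) = G h (s + X) - G h s := by
    rw [G_add, Nat.add_comm s X, sum_shift (fun m => h m / m)]
    ring
  have e2 : ∑ n ∈ Ioc 0 X, 1 / ((n + s : ℕ) : ℝ) = Hh (s + X) - Hh s := by
    unfold Hh
    rw [G_add, Nat.add_comm s X, sum_shift (fun m => 1 / (m : ℝ))]
    ring
  have hterm : ∀ n ∈ Ioc 0 X, 0 ≤ 1 / (n : ℝ) - 1 / ((n + s : ℕ) : ℝ) := by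
    intro n hn
    rw [mem_Ioc] at hn
    have h1 : (0 : ℝ) < n := by exact_mod_cast hn.1
    rw [sub_nonneg]
    apply one_div_le_one_div_of_le h1
    push_cast
    have : (0 : ℝ) ≤ s := Nat.cast_nonneg s
    linarith
  set A : ℝ := ∑ n ∈ Ioc 0 X, h (n + s) * (1 / (n : ℝ) - 1 / ((n + s : ℕ) : ℝ)) with hA
  have hA0 : 0 ≤ A := sum_nonneg fun n hn => mul_nonneg (hh _).1 (hterm n hn)
  set T : ℝ := ∑ n ∈ Ioc 0 X, (1 / (n : ℝ) - 1 / ((n + s : ℕ) : ℝ)) with hT
  have hT0 : 0 ≤ T := sum_nonneg hterm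
  have hAT : A ≤ T := sum_le_sum fun n hn => by
    have := mul_le_mul_of_nonneg_right (hh (n + s)).2 (hterm n hn)
    rwa [one_mul] at this
  have hTe : T = Hh X - (Hh (s + X) - Hh s) := by
    rw [hT, sum_sub_distrib, e2]
    rfl
  have hmono : Hh (s + X) - Hh X = ∑ m ∈ Ioc X (X + s), 1 / (m : ℝ) := by
    rw [Nat.add_comm s X]
    unfold Hh
    rw [G_add]
    ring
  have hmono0 : 0 ≤ Hh (s + X) - Hh X := by
    rw [hmono]
    exact sum_nonneg fun m _ => by positivity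
  have hTs : T ≤ Hh s := by rw [hTe]; linarith
  have hD : lg X (fun n => h (n + s)) = A + (G h (s + X) - G h s) := by
    rw [e0, hA, ← e1, ← sum_add_distrib]
    refine sum_congr rfl fun n _ => ?_
    ring
  -- the second difference
  have hG : G h (s + X) - G h X = ∑ m ∈ Ioc X (X + s), h m / m := by
    rw [Nat.add_comm s X, G_add]
    ring
  have hG0 : 0 ≤ G h (s + X) - G h X := by
    rw [hG]
    exact sum_nonneg fun m _ => div_nonneg (hh m).1 (Nat.cast_nonneg m)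
  have hG1 : G h (s + X) - G h X ≤ Hh (s + X) - Hh X := by
    rw [hG, hmono]
    exact sum_le_sum fun m _ => div_le_div_of_nonneg_right (hh m).2 (Nat.cast_nonneg m)
  have hs0 : 0 ≤ G h s := sum_nonneg fun m _ => div_nonneg (hh m).1 (Nat.cast_nonneg m)
  have hs1 : G h s ≤ Hh s :=
    sum_le_sum fun m _ => div_le_div_of_nonneg_right (hh m).2 (Nat.cast_nonneg m)
  have hL : 0 ≤ 1 + Real.log (1 + s) := hH0.trans hH
  rw [hD, lg_eq X h, abs_le]
  constructor
  · linarith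
  · linarith

end Pool.Agent.H17.EN
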