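import Pool.Agent.H70.EN.Targets

/-!
# The mean over the blocks of a window (SBL)
-/

set_option autoImplicit false

namespace Pool.Agent.H17.EN

open Finset Pool.Agent.H6.N4D Pool.Agent.H93.EB Pool.Agent.H70.EN

lemma sum_blocks (J N n : ℕ) (f : ℕ → ℂ) :
    ∑ m ∈ Ioc n (n + J * N), f m = ∑ j ∈ range J, ∑ m ∈ Ioc (n + j * N) (n + j * N + N), f m := by
  induction J with
  | zero => simp
  | succ J ih =>
    rw [sum_range_succ, ← ih, Nat.succ_mul, ← Nat.add_assoc]
    exact (sum_Ioc_consecutive f (Nat.le_add_right _ _) (Nat.le_add_right _ _)).symm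

theorem pf_SBL (_h1 : T_MAT) : T_SBL := by
  intro lam J N n hJ hN
  have hJ0 : (0 : ℝ) < J := by exact_mod_cast hJ
  have hN0 : (0 : ℝ) < N := by exact_mod_cast hN
  refine M_le lam (J * N) n fun θ => ?_
  have h1 : ∀ j, ‖∑ m ∈ Ioc (n + j * N) (n + j * N + N), (lam m : ℂ) * ee (-(θ * m))‖ ≤
      M lam N (n + j * N) * N := by
    intro j
    have h := le_M lam N (n + j * N) θ
    unfold cr at h
    rw [norm_div, Complex.norm_natCast, div_le_iff₀ hN0] at h
    exact h
  unfold cr
  rw [norm_div, Complex.norm_natCast, sum_blocks, div_le_div_iff₀ (by positivity) hJ0]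
  calc ‖∑ j ∈ range J, ∑ m ∈ Ioc (n + j * N) (n + j * N + N), (lam m : ℂ) * ee (-(θ * m))‖ * J
      ≤ (∑ j ∈ range J, M lam N (n + j * N) * N) * J := by
        refine mul_le_mul_of_nonneg_right ?_ hJ0.le
        exact (norm_sum_le _ _).trans (sum_le_sum fun j _ => h1 j)
    _ = (∑ j ∈ range J, M lam N (n + j * N)) * ((J * N : ℕ) : ℝ) := by
        rw [← sum_mul]
        push_cast
        ring

end Pool.Agent.H17.EN
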